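import Pool.Agent.H92.RR.Targets

/-!
# Row RNZ of the board rr_modules: small values of positive multiplicative functions
-/

set_option autoImplicit false

open Filter Topology Finset

namespace Pool.Agent.H36.RR

open Pool.Agent.H89.MT Pool.Agent.H92.RR

/-- the values, with value zero at zero -/
noncomputable def ff (u : ℕ → I1) (n : ℕ) : ℝ := if n = 0 then 0 else (u n : ℝ)

theorem ff_of (u : ℕ → I1) {n : ℕ} (hn : 0 < n) : ff u n = u n := if_neg hn.ne'

theorem ff_zero (u : ℕ → I1) : ff u 0 = 0 := if_pos rfl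

section

variable {u : ℕ → I1} (hu : IsMult u) (hpos : ∀ n, 0 < n → 0 < (u n : ℝ))

include hpos in
theorem ff_nonneg (n : ℕ) : 0 ≤ ff u n := by
  rcases Nat.eq_zero_or_pos n with h | h
  · rw [h, ff_zero]
  · rw [ff_of u h]
    exact (hpos n h).le

theorem ff_le (n : ℕ) : ff u n ≤ 1 := by
  rcases Nat.eq_zero_or_pos n with h | h
  · rw [h, ff_zero]
    exact zero_le_one
  · rw [ff_of u h]
    exact (u n).2.2

include hu in
theorem ff_mul {m n : ℕ} (hm : 0 < m) (hn : 0 < n) (h : m.Coprime n) :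
    ff u (m * n) = ff u m * ff u n := by
  rw [ff_of u (Nat.mul_pos hm hn), ff_of u hm, ff_of u hn]
  exact hu.2 m n hm hn h

include hu in
theorem ff_one : ff u 1 = 1 := by
  rw [ff_of u one_pos]
  exact hu.1

include hu in
theorem ff_prod {n : ℕ} (hn : n ≠ 0) :
    ff u n = ∏ p ∈ n.primeFactors, ff u (p ^ n.factorization p) := by
  have h := Nat.multiplicative_factorization (ff u) (fun x y hxy => by
    rcases Nat.eq_zero_or_pos x with hx | hx
    · subst hx
      rw [zero_mul, ff_zero, zero_mul]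
    rcases Nat.eq_zero_or_pos y with hy | hy
    · subst hy
      rw [mul_zero, ff_zero, mul_zero]
    exact ff_mul hu hx hy hxy) (ff_one hu) hn
  rw [h, Finsupp.prod, Nat.support_factorization]

end

theorem one_sub_sum_le_prod (s : Finset ℕ) (a : ℕ → ℝ) (h0 : ∀ i ∈ s, 0 ≤ a i)
    (h1 : ∀ i ∈ s, a i ≤ 1) : 1 - ∑ i ∈ s, (1 - a i) ≤ ∏ i ∈ s, a i ∧ ∏ i ∈ s, a i ≤ 1 := by
  classical
  induction s using Finset.induction_on with
  | empty => simp
  | insert i s hi ih =>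
    have h2 := ih (fun j hj => h0 j (mem_insert_of_mem hj)) (fun j hj => h1 j (mem_insert_of_mem hj))
    rw [sum_insert hi, prod_insert hi]
    have h3 := h0 i (mem_insert_self _ _)
    have h4 := h1 i (mem_insert_self _ _)
    have h5 : 0 ≤ ∏ j ∈ s, a j := prod_nonneg fun j hj => h0 j (mem_insert_of_mem hj)
    constructor
    · nlinarith [h2.1, h2.2]
    · nlinarith [h2.2]

theorem lavg_mono {N : ℕ} (_hN : 3 ≤ N) {f g : ℕ → ℝ} (h : ∀ n, 1 ≤ n → n ≤ N → f n ≤ g n) :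
    lavg N f ≤ lavg N g := by
  unfold lavg
  have hl : 0 ≤ Real.log N := Real.log_natCast_nonneg N
  refine div_le_div_of_nonneg_right (sum_le_sum fun n hn => ?_) hl
  rw [mem_Icc] at hn
  exact div_le_div_of_nonneg_right (h n hn.1 hn.2) (Nat.cast_nonneg n)

theorem one_le_log {N : ℕ} (hN : 3 ≤ N) : 1 ≤ Real.log N := by
  rw [Real.le_log_iff_exp_le (by positivity)]
  have h1 : (3 : ℝ) ≤ N := by exact_mod_cast hN
  exact (Real.exp_one_lt_d9.le.trans (by norm_num)).trans h1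

theorem lavg_dvd (hD : T_DIV) {N d : ℕ} (hN : 3 ≤ N) (hd : 1 ≤ d) :
    lavg N (fun n => if d ∣ n then (1 : ℝ) else 0) ≤ 2 / d := by
  have h1 := hD 0 d N hd
  have hl := one_le_log hN
  unfold lavg
  rw [div_le_iff₀ (by linarith)]
  have h2 : ∑ n ∈ Icc 1 N, (if d ∣ n then (1 : ℝ) else 0) / n =
      ∑ n ∈ Icc 1 N with d ∣ n + 0, (1 : ℝ) / n := by
    rw [sum_filter]
    refine sum_congr rfl fun n _ => ?_
    rw [add_zero]
    split_ifs with h
    · rfl
    · rw [zero_div]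
  rw [h2]
  refine h1.trans ?_
  have hd' : (0 : ℝ) < d := by exact_mod_cast hd
  have h3 : ((0 : ℕ) : ℝ) = 0 := Nat.cast_zero
  rw [h3, zero_add, add_zero, div_mul_eq_mul_div, div_mul_eq_mul_div, one_mul]
  exact div_le_div_of_nonneg_right (by linarith) hd'.le

theorem lavg_smul_add (N : ℕ) (s : Finset ℕ) (a : ℕ → ℝ) (g : ℕ → ℕ → ℝ) :
    lavg N (fun n => ∑ p ∈ s, a p * g p n) = ∑ p ∈ s, a p * lavg N (g p) := by
  unfold lavg
  have h1 : ∀ n ∈ Icc 1 N, (∑ p ∈ s, a p * g p n) / (n : ℝ) = ∑ p ∈ s, a p * (g p n / n) := by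
    intro n _
    rw [sum_div]
    exact sum_congr rfl fun p _ => mul_div_assoc _ _ _
  rw [sum_congr rfl h1, sum_comm, sum_div]
  refine sum_congr rfl fun p _ => ?_
  rw [← mul_sum, mul_div_assoc]

theorem lavg_add (N : ℕ) (f g : ℕ → ℝ) : lavg N (fun n => f n + g n) = lavg N f + lavg N g := by
  unfold lavg
  rw [← add_div, ← sum_add_distrib]
  congr 1
  exact sum_congr rfl fun n _ => add_div _ _ _

theorem SS_mono {w : ℕ → ℝ} (hw : ∀ p, 0 ≤ w p) : Monotone (SS w) := by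
  intro M N hMN
  unfold SS
  refine sum_le_sum_of_subset_of_nonneg ?_ fun p _ _ => div_nonneg (hw p) (Nat.cast_nonneg p)
  unfold pr
  exact filter_subset_filter _ (Icc_subset_Icc le_rfl hMN)

theorem case1 (hM : T_MERT) (hE : T_EUL) {u : ℕ → I1} (hu : IsMult u)
    (hpos : ∀ n, 0 < n → 0 < (u n : ℝ))
    (hb : ¬ ∃ B, ∀ N, SS (fun p => 1 - ff u p) N ≤ B) :
    Tendsto (fun N => lavg N fun n => (u n : ℝ)) atTop (𝓝 0) := by
  obtain ⟨C, hC⟩ := hM
  have hw : ∀ p, 0 ≤ 1 - ff u p := fun p => sub_nonneg.2 (ff_le p)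
  have ht : Tendsto (SS fun p => 1 - ff u p) atTop atTop := by
    refine tendsto_atTop_atTop_of_monotone (SS_mono hw) ?_
    intro b
    by_contra hcon
    push Not at hcon
    exact hb ⟨b, fun N => (hcon N).le⟩
  have h1 : ∀ N : ℕ, 3 ≤ N → lavg N (fun n => (u n : ℝ)) ≤
      Real.exp (C + 1 - SS (fun p => 1 - ff u p) N) := by
    intro N hN
    have hl := one_le_log hN
    unfold lavg
    rw [div_le_iff₀ (by linarith)]
    have h2 : ∑ n ∈ Icc 1 N, (u n : ℝ) / n = ∑ n ∈ Icc 1 N, ff u n / n := by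
      refine sum_congr rfl fun n hn => ?_
      rw [ff_of u (mem_Icc.1 hn).1]
    rw [h2]
    refine (hE (ff u) (ff_nonneg hpos) ff_le (fun m n hm hn h => ff_mul hu hm hn h) N).trans ?_
    have h3 : SS (ff u) N = SS (fun _ => 1) N - SS (fun p => 1 - ff u p) N := by
      unfold SS
      rw [← sum_sub_distrib]
      refine sum_congr rfl fun p _ => ?_
      ring
    have h4 : Real.exp (C + 1 - SS (fun p => 1 - ff u p) N) * Real.log N =
        Real.exp (Real.log (Real.log N) + (C + 1 - SS (fun p => 1 - ff u p) N)) := by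
      rw [Real.exp_add, Real.exp_log (by linarith)]
      ring
    rw [h4, Real.exp_le_exp, h3]
    have := hC N hN
    linarith
  have h5 : Tendsto (fun N : ℕ => Real.exp (C + 1 - SS (fun p => 1 - ff u p) N)) atTop (𝓝 0) := by
    refine Real.tendsto_exp_atBot.comp ?_
    exact tendsto_atBot_add_const_left _ (C + 1) (tendsto_neg_atTop_atBot.comp ht)
  refine squeeze_zero' ?_ ?_ h5
  · filter_upwards [eventually_ge_atTop 3] with N hN
    unfold lavg
    refine div_nonneg (sum_nonneg fun n hn => ?_) (Real.log_natCast_nonneg N)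
    exact div_nonneg (hpos n (mem_Icc.1 hn).1).le (Nat.cast_nonneg n)
  · filter_upwards [eventually_ge_atTop 3] with N hN
    exact h1 N hN

/-- the tail of the two series -/
theorem tail {u : ℕ → I1} (hb : ∃ B, ∀ N, SS (fun p => 1 - ff u p) N ≤ B)
    {ε : ℝ} (hε : 0 < ε) : ∃ z : ℕ, ∀ t : Finset ℕ, (∀ p ∈ t, p.Prime ∧ z < p) →
      ∑ p ∈ t, ((1 - ff u p) / p + 1 / (p : ℝ) ^ 2) ≤ ε := by
  classical
  obtain ⟨B, hB⟩ := hb
  have hw : ∀ p, 0 ≤ 1 - ff u p := fun p => sub_nonneg.2 (ff_le p)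
  have s1 : Summable (fun p : ℕ => if p.Prime then (1 - ff u p) / p else 0) := by
    refine summable_of_sum_range_le (c := B) ?_ ?_
    · intro n
      split_ifs
      · exact div_nonneg (hw n) (Nat.cast_nonneg n)
      · exact le_rfl
    · intro n
      rw [← sum_filter]
      refine le_trans ?_ (hB n)
      unfold SS
      refine sum_le_sum_of_subset_of_nonneg ?_ fun p _ _ => div_nonneg (hw p) (Nat.cast_nonneg p)
      intro p hp
      rw [mem_filter, mem_range] at hp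
      unfold pr
      rw [mem_filter, mem_Icc]
      exact ⟨⟨hp.2.one_lt.le, hp.1.le⟩, hp.2⟩
  have s2 : Summable (fun p : ℕ => 1 / (p : ℝ) ^ 2) :=
    Real.summable_one_div_nat_pow.2 (by norm_num)
  have s3 := s1.add s2
  obtain ⟨s, hs⟩ := summable_iff_vanishing_norm.1 s3 ε hε
  refine ⟨s.sup id, ?_⟩
  intro t ht
  have hd : Disjoint t s := by
    rw [disjoint_left]
    intro p hp hps
    have h1 := (ht p hp).2
    have h2 : p ≤ s.sup id := le_sup (f := id) hps
    omega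
  have h1 := hs t hd
  have h2 : ∑ p ∈ t, ((1 - ff u p) / p + 1 / (p : ℝ) ^ 2) =
      ∑ p ∈ t, ((if p.Prime then (1 - ff u p) / p else 0) + 1 / (p : ℝ) ^ 2) := by
    refine sum_congr rfl fun p hp => ?_
    rw [if_pos (ht p hp).1]
  rw [h2]
  exact (le_abs_self _).trans h1.le

/-- lower bound for the values -/
theorem value {u : ℕ → I1} (hu : IsMult u) (hpos : ∀ n, 0 < n → 0 < (u n : ℝ)) (z K N n : ℕ)
    (hn : 1 ≤ n) (hnN : n ≤ N) (m : ℕ → ℝ) (hm0 : ∀ p ∈ pr z, 0 < m p) (hm1 : ∀ p ∈ pr z, m p ≤ 1)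
    (hm : ∀ p ∈ pr z, ∀ k ≤ K, m p ≤ ff u (p ^ k))
    (hR1 : ∑ p ∈ (pr N).filter (z < ·), (1 - ff u p) * (if p ∣ n then (1 : ℝ) else 0) ≤ 1 / 2)
    (hR2 : ∀ p ∈ (pr N).filter (z < ·), ¬ p ^ 2 ∣ n) (hR3 : ∀ p ∈ pr z, ¬ p ^ (K + 1) ∣ n) :
    (∏ p ∈ pr z, m p) / 2 ≤ ff u n := by
  classical
  have hn0 : n ≠ 0 := by omega
  rw [ff_prod hu hn0, ← prod_filter_mul_prod_filter_not n.primeFactors (· ≤ z)]
  have hA : ∏ p ∈ pr z, m p ≤
      ∏ p ∈ n.primeFactors.filter (· ≤ z), ff u (p ^ n.factorization p) := by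
    have hsub : n.primeFactors.filter (· ≤ z) ⊆ pr z := by
      intro p hp
      rw [mem_filter, Nat.mem_primeFactors] at hp
      unfold pr
      rw [mem_filter, mem_Icc]
      exact ⟨⟨hp.1.1.one_lt.le, hp.2⟩, hp.1.1⟩
    have h1 : ∏ p ∈ pr z, m p ≤ ∏ p ∈ n.primeFactors.filter (· ≤ z), m p := by
      rw [← prod_sdiff hsub]
      have h2 : ∏ p ∈ pr z \ n.primeFactors.filter (· ≤ z), m p ≤ 1 :=
        prod_le_one (fun p hp => (hm0 p (mem_sdiff.1 hp).1).le) fun p hp =>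
          hm1 p (mem_sdiff.1 hp).1
      have h3 : 0 ≤ ∏ p ∈ n.primeFactors.filter (· ≤ z), m p :=
        prod_nonneg fun p hp => (hm0 p (hsub hp)).le
      nlinarith
    refine h1.trans (prod_le_prod (fun p hp => (hm0 p (hsub hp)).le) fun p hp => ?_)
    refine hm p (hsub hp) _ ?_
    by_contra hcon
    push Not at hcon
    have hp' := (Nat.mem_primeFactors.1 (mem_filter.1 hp).1).1
    exact hR3 p (hsub hp) ((hp'.pow_dvd_iff_le_factorization hn0).2 hcon)
  have hB : 1 / 2 ≤ ∏ p ∈ n.primeFactors.filter (¬ · ≤ z), ff u (p ^ n.factorization p) := by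
    have hsub : n.primeFactors.filter (¬ · ≤ z) ⊆ (pr N).filter (z < ·) := by
      intro p hp
      rw [mem_filter, Nat.mem_primeFactors] at hp
      unfold pr
      rw [mem_filter, mem_filter, mem_Icc]
      exact ⟨⟨⟨hp.1.1.one_lt.le, (Nat.le_of_dvd (by omega) hp.1.2.1).trans hnN⟩, hp.1.1⟩,
        not_le.1 hp.2⟩
    have h1 : ∏ p ∈ n.primeFactors.filter (¬ · ≤ z), ff u (p ^ n.factorization p) =
        ∏ p ∈ n.primeFactors.filter (¬ · ≤ z), ff u p := by
      refine prod_congr rfl fun p hp => ?_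
      have hp1 := Nat.mem_primeFactors.1 (mem_filter.1 hp).1
      have h2 : n.factorization p = 1 := by
        have h3 : 1 ≤ n.factorization p :=
          (hp1.1.dvd_iff_one_le_factorization hn0).1 hp1.2.1
        have h4 : ¬ 2 ≤ n.factorization p := by
          intro h
          exact hR2 p (hsub hp) ((hp1.1.pow_dvd_iff_le_factorization hn0).2 h)
        omega
      rw [h2, pow_one]
    rw [h1]
    have h2 := (one_sub_sum_le_prod (n.primeFactors.filter (¬ · ≤ z)) (ff u)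
      (fun p _ => ff_nonneg hpos p) (fun p _ => ff_le p)).1
    refine le_trans ?_ h2
    have h3 : ∑ p ∈ n.primeFactors.filter (¬ · ≤ z), (1 - ff u p) ≤
        ∑ p ∈ (pr N).filter (z < ·), (1 - ff u p) * (if p ∣ n then (1 : ℝ) else 0) := by
      have h4 : ∑ p ∈ n.primeFactors.filter (¬ · ≤ z), (1 - ff u p) =
          ∑ p ∈ n.primeFactors.filter (¬ · ≤ z),
            (1 - ff u p) * (if p ∣ n then (1 : ℝ) else 0) := by
        refine sum_congr rfl fun p hp => ?_
        rw [if_pos (Nat.mem_primeFactors.1 (mem_filter.1 hp).1).2.1, mul_one]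
      rw [h4]
      refine sum_le_sum_of_subset_of_nonneg hsub fun p _ _ => ?_
      refine mul_nonneg (sub_nonneg.2 (ff_le p)) ?_
      split_ifs <;> norm_num
    linarith
  have h0 : 0 ≤ ∏ p ∈ pr z, m p := prod_nonneg fun p hp => (hm0 p hp).le
  calc (∏ p ∈ pr z, m p) / 2 = (∏ p ∈ pr z, m p) * (1 / 2) := by ring
    _ ≤ _ := mul_le_mul hA hB (by norm_num) (h0.trans hA)

theorem pf_NZ (hM : T_MERT) (hE : T_EUL) (hD : T_DIV) : T_NZ := by
  classical
  intro u hu hpos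
  by_cases hb : ∃ B, ∀ N, SS (fun p => 1 - ff u p) N ≤ B
  swap
  · exact Or.inl (case1 hM hE hu hpos hb)
  refine Or.inr fun ε hε => ?_
  obtain ⟨z, hz⟩ := tail hb (show 0 < ε / 16 by positivity)
  obtain ⟨K, hK⟩ := exists_pow_lt_of_lt_one (show 0 < ε / (16 * ((z : ℝ) + 1)) by positivity)
    (show (1 / 2 : ℝ) < 1 by norm_num)
  have hpr : ∀ p ∈ pr z, p.Prime := fun p hp => (mem_filter.1 hp).2
  let m : ℕ → ℝ := fun p => (range (K + 1)).inf' ⟨0, by simp⟩ fun k => ff u (p ^ k)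
  have hm0 : ∀ p ∈ pr z, 0 < m p := by
    intro p hp
    change 0 < (range (K + 1)).inf' _ _
    rw [lt_inf'_iff]
    intro k _
    have h1 : 0 < p ^ k := pow_pos (hpr p hp).pos k
    rw [ff_of u h1]
    exact hpos _ h1
  have hm : ∀ p ∈ pr z, ∀ k ≤ K, m p ≤ ff u (p ^ k) := by
    intro p _ k hk
    exact inf'_le (fun k => ff u (p ^ k)) (mem_range.2 (by omega))
  have hm1 : ∀ p ∈ pr z, m p ≤ 1 := fun p hp => (hm p hp 0 (Nat.zero_le _)).trans (ff_le _)
  have hc0 : 0 < ∏ p ∈ pr z, m p := prod_pos hm0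
  refine ⟨(∏ p ∈ pr z, m p) / 2, by positivity, ?_⟩
  filter_upwards [eventually_ge_atTop 3] with N hN
  let T : Finset ℕ := (pr N).filter (z < ·)
  let I : ℕ → ℕ → ℝ := fun d n => if d ∣ n then (1 : ℝ) else 0
  have hI : ∀ d n, 0 ≤ I d n := by
    intro d n
    change 0 ≤ if d ∣ n then (1 : ℝ) else 0
    split_ifs <;> norm_num
  let R1 : ℕ → ℝ := fun n => ∑ p ∈ T, (1 - ff u p) * I p n
  let R2 : ℕ → ℝ := fun n => ∑ p ∈ T, 1 * I (p ^ 2) n
  let R3 : ℕ → ℝ := fun n => ∑ p ∈ pr z, 1 * I (p ^ (K + 1)) n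
  have h10 : ∀ n, 0 ≤ R1 n := fun n => sum_nonneg fun p _ =>
    mul_nonneg (sub_nonneg.2 (ff_le p)) (hI _ _)
  have h20 : ∀ n, 0 ≤ R2 n := fun n => sum_nonneg fun p _ => mul_nonneg zero_le_one (hI _ _)
  have h30 : ∀ n, 0 ≤ R3 n := fun n => sum_nonneg fun p _ => mul_nonneg zero_le_one (hI _ _)
  -- pointwise bound
  have hpt : ∀ n, 1 ≤ n → n ≤ N → (if (u n : ℝ) < (∏ p ∈ pr z, m p) / 2 then (1 : ℝ) else 0) ≤
      2 * (R1 n + (R2 n + R3 n)) := by
    intro n hn hnN
    split_ifs with hlt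
    swap
    · have := h10 n
      have := h20 n
      have := h30 n
      linarith
    by_contra hcon
    push Not at hcon
    have e1 := h10 n
    have e2 := h20 n
    have e3 := h30 n
    have hle := value hu hpos z K N n hn hnN m hm0 hm1 hm (by
      change R1 n ≤ 1 / 2
      linarith) (by
      intro p hp hdvd
      have h5 : (1 : ℝ) ≤ R2 n := by
        have h6 : 1 * I (p ^ 2) n ≤ R2 n :=
          single_le_sum (f := fun p => 1 * I (p ^ 2) n)
            (fun q _ => mul_nonneg zero_le_one (hI _ _)) hp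
        have h7 : I (p ^ 2) n = 1 := if_pos hdvd
        rw [h7] at h6
        linarith
      linarith) (by
      intro p hp hdvd
      have h5 : (1 : ℝ) ≤ R3 n := by
        have h6 : 1 * I (p ^ (K + 1)) n ≤ R3 n :=
          single_le_sum (f := fun p => 1 * I (p ^ (K + 1)) n)
            (fun q _ => mul_nonneg zero_le_one (hI _ _)) hp
        have h7 : I (p ^ (K + 1)) n = 1 := if_pos hdvd
        rw [h7] at h6
        linarith
      linarith)
    rw [ff_of u hn] at hle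
    exact absurd hlt (not_lt.2 hle)
  refine (lavg_mono hN hpt).trans ?_
  -- the averages
  have hT : ∀ p ∈ T, p.Prime ∧ z < p := by
    intro p hp
    rw [mem_filter] at hp
    exact ⟨(mem_filter.1 hp.1).2, hp.2⟩
  have a1 : lavg N R1 ≤ ∑ p ∈ T, (1 - ff u p) * (2 / (p : ℝ)) := by
    change lavg N (fun n => ∑ p ∈ T, (1 - ff u p) * I p n) ≤ _
    rw [lavg_smul_add]
    refine sum_le_sum fun p hp => mul_le_mul_of_nonneg_left ?_ (sub_nonneg.2 (ff_le p))
    exact lavg_dvd hD hN (hT p hp).1.one_lt.le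
  have a2 : lavg N R2 ≤ ∑ p ∈ T, 2 / (p : ℝ) ^ 2 := by
    change lavg N (fun n => ∑ p ∈ T, 1 * I (p ^ 2) n) ≤ _
    rw [lavg_smul_add N T (fun _ => 1) (fun p => I (p ^ 2))]
    refine sum_le_sum fun p hp => ?_
    rw [one_mul]
    have h1 := lavg_dvd hD hN (d := p ^ 2) (pow_pos (hT p hp).1.pos 2)
    rw [Nat.cast_pow] at h1
    exact h1
  have a3 : lavg N R3 ≤ ∑ p ∈ pr z, 2 / (p : ℝ) ^ (K + 1) := by
    change lavg N (fun n => ∑ p ∈ pr z, 1 * I (p ^ (K + 1)) n) ≤ _
    rw [lavg_smul_add N (pr z) (fun _ => 1) (fun p => I (p ^ (K + 1)))]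
    refine sum_le_sum fun p hp => ?_
    rw [one_mul]
    have h1 := lavg_dvd hD hN (d := p ^ (K + 1)) (pow_pos (hpr p hp).pos _)
    rw [Nat.cast_pow] at h1
    exact h1
  have b12 : ∑ p ∈ T, (1 - ff u p) * (2 / (p : ℝ)) + ∑ p ∈ T, 2 / (p : ℝ) ^ 2 ≤ ε / 8 := by
    have h1 := hz T hT
    have h2 : ∑ p ∈ T, (1 - ff u p) * (2 / (p : ℝ)) + ∑ p ∈ T, 2 / (p : ℝ) ^ 2 =
        2 * ∑ p ∈ T, ((1 - ff u p) / p + 1 / (p : ℝ) ^ 2) := by
      rw [← sum_add_distrib, mul_sum]
      refine sum_congr rfl fun p _ => ?_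
      ring
    rw [h2]
    linarith
  have b3 : ∑ p ∈ pr z, 2 / (p : ℝ) ^ (K + 1) ≤ ε / 8 := by
    have h1 : ∀ p ∈ pr z, 2 / (p : ℝ) ^ (K + 1) ≤ 2 * (1 / 2 : ℝ) ^ K := by
      intro p hp
      have h2 : (2 : ℝ) ≤ p := by exact_mod_cast (hpr p hp).two_le
      have h3 : (2 : ℝ) ^ (K + 1) ≤ (p : ℝ) ^ (K + 1) :=
        pow_le_pow_left₀ (by norm_num) h2 _
      calc 2 / (p : ℝ) ^ (K + 1) ≤ 2 / (2 : ℝ) ^ (K + 1) :=
            div_le_div_of_nonneg_left (by norm_num) (by positivity) h3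
        _ = (1 / 2 : ℝ) ^ K := by
            rw [pow_succ, one_div, inv_pow]
            field_simp
        _ ≤ 2 * (1 / 2 : ℝ) ^ K := by
            have : 0 ≤ (1 / 2 : ℝ) ^ K := by positivity
            linarith
    refine (sum_le_card_nsmul _ _ _ h1).trans ?_
    rw [nsmul_eq_mul]
    have hcard : ((pr z).card : ℝ) ≤ z := by
      have : (pr z).card ≤ (Icc 1 z).card := card_le_card (filter_subset _ _)
      rw [Nat.card_Icc, Nat.add_sub_cancel] at this
      exact_mod_cast this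
    have hz1 : (0 : ℝ) < (z : ℝ) + 1 := by positivity
    have h4 : (1 / 2 : ℝ) ^ K * (16 * ((z : ℝ) + 1)) < ε := by
      rwa [lt_div_iff₀ (by positivity)] at hK
    have h5 : 0 ≤ (1 / 2 : ℝ) ^ K := by positivity
    have h6 : ((pr z).card : ℝ) * (2 * (1 / 2 : ℝ) ^ K) ≤ z * (2 * (1 / 2 : ℝ) ^ K) :=
      mul_le_mul_of_nonneg_right hcard (by positivity)
    nlinarith
  have hsum : lavg N (fun n => 2 * (R1 n + (R2 n + R3 n))) =
      2 * (lavg N R1 + (lavg N R2 + lavg N R3)) := by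
    rw [← lavg_add, ← lavg_add]
    have h := lavg_smul_add N {0} (fun _ => 2) (fun _ n => R1 n + (R2 n + R3 n))
    simpa using h
  rw [hsum]
  linarith

end Pool.Agent.H36.RR
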